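import Pool.Agent.Lib.MP_75bae7_al.Cn.Main

/-!
The Gelfand-Kirillov conjecture fails for every symplectic Lie algebra of rank at least two.
-/

namespace Pool.Agent.Results.MP_75bae7_al.SpAllFails

open Pool.Agent.Lib.MP_75bae7_al

universe u v

theorem result (n : ℕ) (hn : 2 ≤ n) (r s : ℕ) (K₁ : Type u) [DivisionRing K₁] [Algebra ℂ K₁]
    (K₂ : Type v) [DivisionRing K₂] [Algebra ℂ K₂]
    (f : UniversalEnvelopingAlgebra ℂ (LieAlgebra.Symplectic.sp (Fin n) ℂ) →ₐ[ℂ] K₁)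
    (hf : IsSkewFrac f)
    (h : TensorProduct ℂ (WeylAlg r) (MvPolynomial (Fin s) ℂ) →ₐ[ℂ] K₂) (hh : IsSkewFrac h) :
    IsEmpty (K₁ ≃ₐ[ℂ] K₂) := by
  refine ⟨fun e => ?_⟩
  have : Small.{0} K₁ := small_of_surjective
    (f := fun x : UniversalEnvelopingAlgebra ℂ (LieAlgebra.Symplectic.sp (Fin n) ℂ) ×
      UniversalEnvelopingAlgebra ℂ (LieAlgebra.Symplectic.sp (Fin n) ℂ) => f x.1 * (f x.2)⁻¹)
    fun x => by
      obtain ⟨a, b, -, h1⟩ := hf.2 x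
      exact ⟨(a, b), h1.symm⟩
  let j : Shrink.{0} K₁ ≃ₐ[ℂ] K₁ := Shrink.algEquiv ℂ K₁
  obtain ⟨w⟩ := exists_WF_tensor ((j.trans e).symm.toAlgHom.comp h)
    ((j.trans e).symm.injective.comp hh.1) fun x => by
      obtain ⟨a, b, -, h1⟩ := hh.2 ((j.trans e) x)
      exact ⟨a, b, (j.trans e).injective (by simpa using h1)⟩
  refine Cn.no_WF_sp hn w (j.symm.toAlgHom.comp f) ⟨j.symm.injective.comp hf.1, fun x => ?_⟩
  obtain ⟨a, b, hb, h1⟩ := hf.2 (j x)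
  exact ⟨a, b, hb, j.injective (by simpa using h1)⟩

end Pool.Agent.Results.MP_75bae7_al.SpAllFails
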